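import Pool.Agent.Helper6_Eng.Stmts

set_option autoImplicit false

namespace Pool.Agent.Eng.H94

open Matrix

/-- The form `φ ∘ det` on `R²`. -/
def om {F R : Type} [Field F] [CommRing R] [Algebra F R] (φ : R →ₗ[F] F) :
    (Fin 2 → R) →ₗ[F] (Fin 2 → R) →ₗ[F] F :=
  LinearMap.mk₂ F (fun u v => φ (u 0 * v 1 - u 1 * v 0))
    (by intro a b c; simp only [Pi.add_apply]; rw [← map_add]; congr 1; ring)
    (by intro c a b; simp only [Pi.smul_apply]; rw [← map_smul]; congr 1
        simp only [smul_mul_assoc, smul_sub])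
    (by intro a b c; simp only [Pi.add_apply]; rw [← map_add]; congr 1; ring)
    (by intro c a b; simp only [Pi.smul_apply]; rw [← map_smul]; congr 1
        simp only [mul_smul_comm, smul_sub])

theorem om_apply {F R : Type} [Field F] [CommRing R] [Algebra F R] (φ : R →ₗ[F] F)
    (u v : Fin 2 → R) : om φ u v = φ (u 0 * v 1 - u 1 * v 0) := rfl

/-- The action of `SL₂(R)` on `R²`. -/
def act (F R : Type) [Field F] [CommRing R] [Algebra F R] :
    SpecialLinearGroup (Fin 2) R →* ((Fin 2 → R) ≃ₗ[F] (Fin 2 → R)) where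
  toFun g := (SpecialLinearGroup.toLin' g).restrictScalars F
  map_one' := by
    ext v i
    simp
  map_mul' a b := by
    ext v i
    simp

theorem act_apply {F R : Type} [Field F] [CommRing R] [Algebra F R]
    (g : SpecialLinearGroup (Fin 2) R) (v : Fin 2 → R) :
    act F R g v = (g : Matrix (Fin 2) (Fin 2) R) *ᵥ v := by
  change SpecialLinearGroup.toLin' g v = _
  rw [SpecialLinearGroup.toLin'_apply, Matrix.toLin'_apply]

theorem act_mem {F R : Type} [Field F] [CommRing R] [Algebra F R] (φ : R →ₗ[F] F)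
    (g : SpecialLinearGroup (Fin 2) R) : act F R g ∈ SpV (om φ) := by
  intro u v
  rw [om_apply, om_apply, act_apply, act_apply]
  congr 1
  have hd : g.1 0 0 * g.1 1 1 - g.1 0 1 * g.1 1 0 = 1 := by
    rw [← Matrix.det_fin_two]; exact g.2
  simp only [Matrix.mulVec, dotProduct, Fin.sum_univ_two]
  linear_combination (u 0 * v 1 - u 1 * v 0) * hd

theorem om_symp {F R : Type} [Field F] [CommRing R] [Algebra F R] (φ : R →ₗ[F] F)
    (h : ∀ u : R, (∀ v : R, φ (u * v) = 0) → u = 0) : IsSymp (om φ) := by
  refine ⟨fun v => ?_, fun u hu => ?_⟩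
  · rw [om_apply, mul_comm, sub_self, map_zero]
  · have h0 : u 0 = 0 := by
      apply h
      intro v
      have := hu ![0, v]
      rw [om_apply] at this
      simpa using this
    have h1 : u 1 = 0 := by
      apply h
      intro v
      have := hu ![v, 0]
      rw [om_apply] at this
      simpa using this
    ext i
    fin_cases i
    · exact h0
    · exact h1

theorem ur (hSBR : SpBraidStmt) : Sl2RingStmt := by
  intro F R _ _ _ _ φ m N hfr hnd w z hb hc
  refine hSBR F (Fin 2 → R) (om φ) m N (om_symp φ hnd) ?_ (act F R w) (act F R z)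
    (act_mem φ w) (act_mem φ z) ?_ ?_
  · rw [Module.finrank_pi_fintype]
    simp [hfr]
  · rw [← map_mul, ← map_mul, ← map_mul, ← map_mul, hb]
  · intro d c hd h
    refine hc d c hd ?_
    have key : ∀ v : Fin 2 → R,
        ((z : Matrix (Fin 2) (Fin 2) R) * (w : Matrix (Fin 2) (Fin 2) R) ^ (2 * d)) *ᵥ v =
        (c • ((w : Matrix (Fin 2) (Fin 2) R) ^ (2 * d) * (z : Matrix (Fin 2) (Fin 2) R))) *ᵥ v := by
      intro v
      have h1 := h v
      rw [← map_pow, act_apply, act_apply, act_apply, act_apply] at h1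
      rw [Matrix.smul_mulVec, ← Matrix.mulVec_mulVec, ← Matrix.mulVec_mulVec]
      simpa using h1
    exact Matrix.ext_of_mulVec_single fun i => key _

end Pool.Agent.Eng.H94
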