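import Pool.Agent.Helper6_Eng.Stmts

set_option autoImplicit false

namespace Pool.Agent.Eng.H94

open Matrix Polynomial

/-- The truncated polynomial ring with its socle functional. -/
theorem trunc_ring (F : Type) [Field F] (m : ℕ) (hm : 1 ≤ m) :
    ∃ (R : Type) (_ : CommRing R) (_ : Algebra F R) (_ : FiniteDimensional F R)
      (φ : R →ₗ[F] F) (η : R), Module.finrank F R = m ∧
      (∀ u : R, (∀ v : R, φ (u * v) = 0) → u = 0) ∧ η ^ m = 0 ∧ η ^ (m - 1) ≠ 0 := by
  have hmon : (X ^ m : F[X]).Monic := monic_X_pow m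
  set pb := AdjoinRoot.powerBasis' hmon with hpb
  have hdim : pb.dim = m := by
    rw [hpb, AdjoinRoot.powerBasis'_dim, natDegree_X_pow]
  have hgen : pb.gen = AdjoinRoot.root (X ^ m : F[X]) := by
    rw [hpb, AdjoinRoot.powerBasis'_gen]
  have hnil : pb.gen ^ m = 0 := by
    rw [hgen]
    have h := AdjoinRoot.eval₂_root (X ^ m : F[X])
    simpa using h
  have hlt : m - 1 < pb.dim := by omega
  set φ : AdjoinRoot (X ^ m : F[X]) →ₗ[F] F := pb.basis.coord ⟨m - 1, hlt⟩ with hφ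
  have hφk : ∀ k : ℕ, φ (pb.gen ^ k) = if k = m - 1 then 1 else 0 := by
    intro k
    by_cases hk : k < m
    · have hk' : k < pb.dim := by omega
      have hb : pb.gen ^ k = pb.basis ⟨k, hk'⟩ := by
        rw [PowerBasis.coe_basis]
      rw [hb, hφ, Module.Basis.coord_apply, Module.Basis.repr_self, Finsupp.single_apply]
      simp only [Fin.mk.injEq]
    · have h0 : pb.gen ^ k = 0 := by
        have : k = m + (k - m) := by omega
        rw [this, pow_add, hnil, zero_mul]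
      rw [h0, map_zero, if_neg (by omega)]
  refine ⟨AdjoinRoot (X ^ m : F[X]), inferInstance, inferInstance, pb.finite, φ, pb.gen,
    ?_, ?_, hnil, ?_⟩
  · rw [PowerBasis.finrank pb, hdim]
  · intro u hu
    apply pb.basis.ext_elem
    intro i
    rw [map_zero, Finsupp.zero_apply]
    have hi : (i : ℕ) < m := by
      have := i.2
      omega
    have h1 := hu (pb.gen ^ (m - 1 - (i : ℕ)))
    conv at h1 =>
      lhs
      rw [← pb.basis.sum_repr u]
    rw [Finset.sum_mul, map_sum] at h1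
    rw [Finset.sum_eq_single i] at h1
    · rw [PowerBasis.coe_basis, smul_mul_assoc, ← pow_add, map_smul, hφk, if_pos (by omega)] at h1
      simpa using h1
    · intro j _ hj
      rw [PowerBasis.coe_basis, smul_mul_assoc, ← pow_add, map_smul, hφk, if_neg, smul_zero]
      intro h
      apply hj
      apply Fin.ext
      omega
    · intro h
      exact absurd (Finset.mem_univ i) h
  · intro h
    have h1 := hφk (m - 1)
    rw [h, map_zero, if_pos rfl] at h1
    exact zero_ne_one h1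

/-- `W = [[1,1],[e,1+e]]` satisfies `(W-1)² = e W`. -/
theorem W_sq {R : Type} [CommRing R] (e : R) :
    ((!![1, 1; e, 1 + e] : Matrix (Fin 2) (Fin 2) R) - 1) ^ 2 =
      e • (!![1, 1; e, 1 + e] : Matrix (Fin 2) (Fin 2) R) := by
  rw [pow_two]
  ext i j
  fin_cases i <;> fin_cases j <;>
    simp [Matrix.mul_apply, Fin.sum_univ_two, Matrix.one_apply] <;> ring

theorem uni (hUR : Sl2RingStmt) (hUB : Sl2EpsStmt) : UniStmt := by
  intro F _ _ p m k _ hp hp2 hm hk hlt
  obtain ⟨R, _, _, _, φ, η, hfin, hnd, hη, hη'⟩ := trunc_ring F m hm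
  have hR : Nontrivial R := ⟨⟨η ^ (m - 1), 0, hη'⟩⟩
  have hnil : IsNilpotent η := ⟨m, hη⟩
  obtain ⟨v, hv⟩ := (hnil.isUnit_one_sub).exists_right_inv
  obtain ⟨u, hu⟩ := (hnil.isUnit_one_add).exists_right_inv
  obtain ⟨w, z, hw, hbr, hcom⟩ := hUB R η v u hv hu
  refine hUR F R φ m (p ^ k) hfin hnd w z hbr ?_
  intro d c hd hc
  set e : R := η * v ^ 2 with he
  set W : Matrix (Fin 2) (Fin 2) R := (w : Matrix (Fin 2) (Fin 2) R) with hW
  set Z : Matrix (Fin 2) (Fin 2) R := (z : Matrix (Fin 2) (Fin 2) R) with hZ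
  have hem : e ^ m = 0 := by rw [he, mul_pow, hη, zero_mul]
  have hem' : e ^ (m - 1) ≠ 0 := by
    intro h
    apply hη'
    rw [he, mul_pow] at h
    have h2 : (v ^ 2) ^ (m - 1) * ((1 - η) ^ 2) ^ (m - 1) = 1 := by
      rw [← mul_pow, ← mul_pow, mul_comm v, hv]
      simp
    calc η ^ (m - 1) = η ^ (m - 1) * ((v ^ 2) ^ (m - 1) * ((1 - η) ^ 2) ^ (m - 1)) := by
          rw [h2, mul_one]
      _ = (η ^ (m - 1) * (v ^ 2) ^ (m - 1)) * ((1 - η) ^ 2) ^ (m - 1) := by ring
      _ = 0 := by rw [h, zero_mul]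
  have hsq : (W - 1) ^ 2 = e • W := by rw [hw]; exact W_sq e
  have hpow : ∀ j : ℕ, (W - 1) ^ (2 * j) = e ^ j • W ^ j := by
    intro j
    rw [pow_mul, hsq, _root_.smul_pow]
  have hzero : (W - 1) ^ (2 * m) = 0 := by rw [hpow, hem, zero_smul]
  have hdetW : W.det = 1 := w.2
  have hdetZ : Z.det = 1 := z.2
  have hinv : W ^ (m - 1) * ((w⁻¹ ^ (m - 1) : SpecialLinearGroup (Fin 2) R) :
      Matrix (Fin 2) (Fin 2) R) = 1 := by
    have h1 : ((w ^ (m - 1) * w⁻¹ ^ (m - 1) : SpecialLinearGroup (Fin 2) R) :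
        Matrix (Fin 2) (Fin 2) R) = W ^ (m - 1) * ((w⁻¹ ^ (m - 1) :
        SpecialLinearGroup (Fin 2) R) : Matrix (Fin 2) (Fin 2) R) := by
      refine (Matrix.SpecialLinearGroup.coe_mul _ _).trans ?_
      exact congrArg (fun t : Matrix (Fin 2) (Fin 2) R => t * ((w⁻¹ ^ (m - 1) :
        SpecialLinearGroup (Fin 2) R) : Matrix (Fin 2) (Fin 2) R))
        (Matrix.SpecialLinearGroup.coe_pow w (m - 1))
    rw [← h1, inv_pow, mul_inv_cancel]
    exact Matrix.SpecialLinearGroup.coe_one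
  have hne : (W - 1) ^ (2 * m - 1) ≠ 0 := by
    intro h
    have h1 : (W - 1) ^ (2 * m - 1) = (W - 1) * (e ^ (m - 1) • W ^ (m - 1)) := by
      rw [← hpow, ← pow_succ']
      congr 1
      omega
    rw [h1] at h
    have h2 : (W - 1) * (e ^ (m - 1) • W ^ (m - 1)) *
        ((w⁻¹ ^ (m - 1) : SpecialLinearGroup (Fin 2) R) : Matrix (Fin 2) (Fin 2) R) =
        e ^ (m - 1) • (W - 1) := by
      rw [Matrix.mul_smul, Matrix.smul_mul, Matrix.mul_assoc, hinv, Matrix.mul_one]
    rw [h, Matrix.zero_mul] at h2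
    have h3 := congrFun (congrFun h2 0) 1
    rw [hw] at h3
    simp at h3
    exact hem' h3.symm
  -- the order of `w`
  haveI : CharP R p := charP_of_injective_algebraMap (FaithfulSMul.algebraMap_injective F R) p
  haveI : Fact p.Prime := ⟨hp⟩
  have hfrob : ∀ j : ℕ, (W - 1) ^ (p ^ j) = W ^ (p ^ j) - 1 := by
    intro j
    have h := sub_pow_char_pow_of_commute (p := p) (n := j) (x := W) (y := 1) (Commute.one_right W)
    rw [h, one_pow]
  have hcoe : ∀ n : ℕ, w ^ n = 1 ↔ W ^ n = 1 := by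
    intro n
    have hn : ((w ^ n : SpecialLinearGroup (Fin 2) R) : Matrix (Fin 2) (Fin 2) R) = W ^ n :=
      Matrix.SpecialLinearGroup.coe_pow w n
    constructor
    · intro h
      rw [← hn, h]
      exact Matrix.SpecialLinearGroup.coe_one
    · intro h
      apply Subtype.ext
      exact (hn.trans h).trans Matrix.SpecialLinearGroup.coe_one.symm
  obtain ⟨J, hJ⟩ : ∃ J : ℕ, 2 * m ≤ p ^ J :=
    ⟨2 * m, (Nat.lt_pow_self hp.one_lt).le⟩
  have hwJ : w ^ (p ^ J) = 1 := by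
    rw [hcoe, ← sub_eq_zero, ← hfrob]
    obtain ⟨t, ht⟩ := Nat.exists_eq_add_of_le hJ
    rw [ht, pow_add, hzero, zero_mul]
  obtain ⟨j, _, hj⟩ := (Nat.dvd_prime_pow hp).1 (orderOf_dvd_of_pow_eq_one hwJ)
  have hkj : k ≤ j := by
    by_contra hcon
    have h1 : p ^ j ≤ p ^ (k - 1) := Nat.pow_le_pow_right hp.pos (by omega)
    have h2 : p ^ j ≤ 2 * m - 1 := by omega
    have h3 : w ^ (p ^ j) = 1 := by rw [← hj]; exact pow_orderOf_eq_one w
    rw [hcoe, ← sub_eq_zero, ← hfrob] at h3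
    obtain ⟨t, ht⟩ := Nat.exists_eq_add_of_le h2
    apply hne
    rw [ht, pow_add, h3, zero_mul]
  -- the scalar
  have hc' : Z * W ^ (2 * d) = (algebraMap F R c) • (W ^ (2 * d) * Z) := by
    rw [hc, algebraMap_smul]
  have hdet := congrArg Matrix.det hc'
  rw [Matrix.det_mul, Matrix.det_smul, Matrix.det_mul, Matrix.det_pow, hdetW, hdetZ, one_pow,
    mul_one, mul_one, Fintype.card_fin] at hdet
  have h4 : Z * W ^ (4 * d) = W ^ (4 * d) * Z := by
    have : 4 * d = 2 * d + 2 * d := by ring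
    rw [this, pow_add, ← Matrix.mul_assoc, hc', Matrix.smul_mul, Matrix.mul_assoc, hc',
      Matrix.mul_smul, smul_smul, ← pow_two, ← hdet, one_smul, ← Matrix.mul_assoc]
  have h5 : w ^ (4 * d) * z = z * w ^ (4 * d) := by
    apply Subtype.ext
    have hn : ((w ^ (4 * d) : SpecialLinearGroup (Fin 2) R) : Matrix (Fin 2) (Fin 2) R) =
      W ^ (4 * d) := Matrix.SpecialLinearGroup.coe_pow w (4 * d)
    refine (Matrix.SpecialLinearGroup.coe_mul _ _).trans (Eq.trans ?_ (Matrix.SpecialLinearGroup.coe_mul _ _).symm)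
    rw [hn]
    exact h4.symm
  obtain ⟨a, ha⟩ := hcom (4 * d) h5
  have hdet2 := congrArg Matrix.det ha
  rw [Matrix.det_pow, Matrix.det_smul, Matrix.det_one, Fintype.card_fin, mul_one] at hdet2
  have hdet3 : (1 : R) = a ^ 2 := by
    rw [← hdet2]
    change 1 = W.det ^ (4 * d)
    rw [hdetW, one_pow]
  have h8 : w ^ (8 * d) = 1 := by
    rw [hcoe]
    have : 8 * d = 4 * d + 4 * d := by ring
    rw [this, pow_add]
    change (w : Matrix (Fin 2) (Fin 2) R) ^ (4 * d) * (w : Matrix (Fin 2) (Fin 2) R) ^ (4 * d) = 1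
    rw [ha, Matrix.smul_mul, Matrix.mul_smul, smul_smul, ← pow_two, ← hdet3, one_smul,
      Matrix.mul_one]
  have h9 : p ^ k ∣ 8 * d :=
    (pow_dvd_pow p hkj).trans (hj ▸ orderOf_dvd_of_pow_eq_one h8)
  have hcop : Nat.Coprime (p ^ k) 8 := by
    apply Nat.Coprime.pow_left
    have : (8 : ℕ) = 2 ^ 3 := by norm_num
    rw [this]
    exact Nat.Coprime.pow_right 3 ((Nat.coprime_primes hp Nat.prime_two).2 hp2)
  exact hcop.dvd_of_dvd_mul_left h9

end Pool.Agent.Eng.H94
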